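import Pool.Agent.N870.EC.Stm

/-!
# EC/CNT2: pairs of integers in a box with given residues
-/

set_option autoImplicit false

namespace Pool.Agent.N454.EC

open Finset

open scoped Classical

lemma modEq_of_mod {M x a : ℕ} (h : x % M = a) : x ≡ a [MOD M] := by
  rw [Nat.ModEq, ← h, Nat.mod_mod]

lemma card_RR (Z : ℕ → ℕ → ℕ → Prop) (P : Finset ℕ) (hP : ∀ p ∈ P, p.Prime)
    (hZ : ∀ p ∈ P, ∀ a b a' b' : ℕ, a ≡ a' [MOD p] → b ≡ b' [MOD p] → (Z p a b ↔ Z p a' b')) :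
    ((range (∏ p ∈ P, p) ×ˢ range (∏ p ∈ P, p)).filter
      (fun t : ℕ × ℕ => ∀ p ∈ P, Z p t.1 t.2)).card =
    ∏ p ∈ P, ((range p ×ˢ range p).filter (fun t : ℕ × ℕ => Z p t.1 t.2)).card := by
  induction P using Finset.induction_on with
  | empty => simp
  | insert p T hpT ih =>
    have hpp := hP p (mem_insert_self _ _)
    have ih' := ih (fun q hq => hP q (mem_insert_of_mem hq)) (fun q hq => hZ q (mem_insert_of_mem hq))
    rw [Finset.prod_insert hpT, Finset.prod_insert hpT, ← ih']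
    set M := ∏ q ∈ T, q with hM
    have hcop : M.Coprime p := by
      apply Nat.Coprime.prod_left
      intro q hq
      have := hP q (mem_insert_of_mem hq)
      rw [Nat.coprime_primes this hpp]
      rintro rfl
      exact hpT hq
    have hM0 : 0 < M := Finset.prod_pos fun q hq => (hP q (mem_insert_of_mem hq)).pos
    have hp0 := hpp.pos
    have hqM : ∀ q ∈ T, q ∣ M := fun q hq => dvd_prod_of_mem _ hq
    have hmem : ∀ x y : ℕ, (∀ q ∈ insert p T, Z q x y) ↔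
        Z p (x % p) (y % p) ∧ (∀ q ∈ T, Z q (x % M) (y % M)) := by
      intro x y
      rw [Finset.forall_mem_insert]
      refine and_congr ?_ ?_
      · exact hZ p (mem_insert_self _ _) _ _ _ _ (Nat.mod_modEq _ _).symm (Nat.mod_modEq _ _).symm
      · refine forall₂_congr fun q hq => ?_
        exact hZ q (mem_insert_of_mem hq) _ _ _ _
          ((Nat.mod_modEq x M).symm.of_dvd (hqM q hq)) ((Nat.mod_modEq y M).symm.of_dvd (hqM q hq))
    rw [← Finset.card_product]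
    refine Finset.card_bij (fun t _ => ((t.1 % p, t.2 % p), (t.1 % M, t.2 % M))) ?_ ?_ ?_
    · rintro ⟨x, y⟩ h
      rw [mem_filter, hmem] at h
      simp only [mem_product, mem_filter, mem_range]
      exact ⟨⟨⟨Nat.mod_lt _ hp0, Nat.mod_lt _ hp0⟩, h.2.1⟩,
        ⟨⟨Nat.mod_lt _ hM0, Nat.mod_lt _ hM0⟩, h.2.2⟩⟩
    · rintro ⟨x, y⟩ h ⟨x', y'⟩ h' he
      simp only [mem_product, mem_filter, mem_range] at h h'
      simp only [Prod.mk.injEq] at he
      obtain ⟨⟨e1, e2⟩, e3, e4⟩ := he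
      have k1 : x ≡ x' [MOD p * M] := (Nat.modEq_and_modEq_iff_modEq_mul hcop.symm).1 ⟨e1, e3⟩
      have k2 : y ≡ y' [MOD p * M] := (Nat.modEq_and_modEq_iff_modEq_mul hcop.symm).1 ⟨e2, e4⟩
      rw [k1.eq_of_lt_of_lt h.1.1 h'.1.1, k2.eq_of_lt_of_lt h.1.2 h'.1.2]
    · rintro ⟨⟨a, b⟩, c, d⟩ h
      simp only [mem_product, mem_filter, mem_range] at h
      obtain ⟨⟨⟨ha, hb⟩, hab⟩, ⟨hc, hd⟩, hcd⟩ := h
      obtain ⟨x, hx1, hx2⟩ := Nat.chineseRemainder hcop.symm a c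
      obtain ⟨y, hy1, hy2⟩ := Nat.chineseRemainder hcop.symm b d
      have hpM : 0 < p * M := Nat.mul_pos hp0 hM0
      have e1 : (x % (p * M)) % p = a := by
        rw [Nat.mod_mul_right_mod, hx1, Nat.mod_eq_of_lt ha]
      have e2 : (y % (p * M)) % p = b := by
        rw [Nat.mod_mul_right_mod, hy1, Nat.mod_eq_of_lt hb]
      have e3 : (x % (p * M)) % M = c := by
        rw [Nat.mod_mul_left_mod, hx2, Nat.mod_eq_of_lt hc]
      have e4 : (y % (p * M)) % M = d := by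
        rw [Nat.mod_mul_left_mod, hy2, Nat.mod_eq_of_lt hd]
      refine ⟨(x % (p * M), y % (p * M)), ?_, ?_⟩
      · rw [mem_filter, hmem]
        simp only [mem_product, mem_range, e1, e2, e3, e4]
        exact ⟨⟨Nat.mod_lt _ hpM, Nat.mod_lt _ hpM⟩, hab, hcd⟩
      · simp only [e1, e2, e3, e4]

lemma card_res (X d a : ℕ) (hd : 0 < d) (ha : a < d) :
    |(((Icc 1 X).filter (fun u => u % d = a)).card : ℝ) - X / d| ≤ 1 := by
  have h1 : (Icc 1 X).filter (fun u => u % d = a) = (Ioc 0 X).filter (fun u => u ≡ a [MOD d]) := by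
    ext u
    simp only [mem_filter, mem_Icc, mem_Ioc, Nat.ModEq, Nat.mod_eq_of_lt ha]
    constructor
    · rintro ⟨h1, h2⟩; exact ⟨by omega, h2⟩
    · rintro ⟨h1, h2⟩; exact ⟨by omega, h2⟩
  have h2 := Nat.Ioc_filter_modEq_card 0 X hd a
  rw [h1]
  set x : ℚ := ((X : ℚ) - a) / d with hx
  set y : ℚ := ((0 : ℕ) - (a : ℚ)) / d with hy
  have hd' : (0 : ℚ) < d := by exact_mod_cast hd
  have hxy : x - y = X / d := by rw [hx, hy]; push_cast; ring
  have hX : (0 : ℚ) ≤ X / d := by positivity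
  have f1 := Int.floor_le x
  have f2 := Int.lt_floor_add_one x
  have f3 := Int.floor_le y
  have f4 := Int.lt_floor_add_one y
  have hle : y ≤ x := by linarith
  have hfl : ⌊y⌋ ≤ ⌊x⌋ := Int.floor_le_floor hle
  rw [max_eq_left (by omega)] at h2
  have h3 : (((Ioc 0 X).filter (fun u => u ≡ a [MOD d])).card : ℚ) = (⌊x⌋ : ℚ) - ⌊y⌋ := by
    have : (((((Ioc 0 X).filter (fun u => u ≡ a [MOD d])).card : ℤ)) : ℚ) = ((⌊x⌋ - ⌊y⌋ : ℤ) : ℚ) := by
      rw [h2]
    push_cast at this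
    exact this
  have h4 : |(((Ioc 0 X).filter (fun u => u ≡ a [MOD d])).card : ℚ) - X / d| ≤ 1 := by
    rw [h3, ← hxy, abs_le]
    constructor <;> linarith
  have h5 : ((|(((Ioc 0 X).filter (fun u => u ≡ a [MOD d])).card : ℚ) - X / d| : ℚ) : ℝ) ≤ 1 := by
    exact_mod_cast h4
  push_cast at h5
  exact h5

lemma prod_close (A B q : ℝ) (hB0 : 0 ≤ B) (h1 : -1 ≤ A - q ∧ A - q ≤ 1)
    (h2 : -1 ≤ B - q ∧ B - q ≤ 1) (hq : 1 ≤ q) : |A * B - q * q| ≤ 3 * q := by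
  obtain ⟨a1, a2⟩ := h1
  obtain ⟨b1, b2⟩ := h2
  have p1 : 0 ≤ (A - q + 1) * B := mul_nonneg (by linarith) hB0
  have p2 : 0 ≤ q * (B - q + 1) := mul_nonneg (by linarith) (by linarith)
  have p3 : 0 ≤ (1 - (A - q)) * B := mul_nonneg (by linarith) hB0
  have p4 : 0 ≤ q * (1 - (B - q)) := mul_nonneg (by linarith) (by linarith)
  rw [abs_le]
  constructor
  · linarith
  · linarith

theorem cnt2 (X : ℕ) (P : Finset ℕ) (Z : ℕ → ℕ → ℕ → Prop) (hP : ∀ p ∈ P, p.Prime)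
    (hZ : ∀ p ∈ P, ∀ a b a' b' : ℕ, a ≡ a' [MOD p] → b ≡ b' [MOD p] → (Z p a b ↔ Z p a' b'))
    (hX : ∏ p ∈ P, p ≤ X) :
    |(((Icc 1 X ×ˢ Icc 1 X).filter (fun t : ℕ × ℕ => ∀ p ∈ P, Z p t.1 t.2)).card : ℝ) -
      (X : ℝ) ^ 2 * ∏ p ∈ P, (((range p ×ˢ range p).filter
        (fun t : ℕ × ℕ => Z p t.1 t.2)).card : ℝ) / (p : ℝ) ^ 2| ≤
      3 * (∏ p ∈ P, (p : ℝ)) * X := by
  set d := ∏ p ∈ P, p with hd
  have hd0 : 0 < d := Finset.prod_pos fun p hp => (hP p hp).pos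
  set R := (range d ×ˢ range d).filter (fun t : ℕ × ℕ => ∀ p ∈ P, Z p t.1 t.2) with hR
  have hRc : R.card = ∏ p ∈ P, ((range p ×ˢ range p).filter (fun t : ℕ × ℕ => Z p t.1 t.2)).card :=
    card_RR Z P hP hZ
  have hdr : (∏ p ∈ P, (p : ℝ)) = d := by rw [hd]; push_cast; rfl
  have hmain : (X : ℝ) ^ 2 * ∏ p ∈ P, (((range p ×ˢ range p).filter
        (fun t : ℕ × ℕ => Z p t.1 t.2)).card : ℝ) / (p : ℝ) ^ 2 = ∑ t ∈ R, (X : ℝ) ^ 2 / d ^ 2 := by
    rw [sum_const, nsmul_eq_mul, hRc, prod_div_distrib, prod_pow, hdr]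
    push_cast
    ring
  have hper : ∀ x y : ℕ, (∀ p ∈ P, Z p x y) ↔ ∀ p ∈ P, Z p (x % d) (y % d) := by
    intro x y
    refine forall₂_congr fun q hq => ?_
    have hqd : q ∣ d := dvd_prod_of_mem _ hq
    exact hZ q hq _ _ _ _ ((Nat.mod_modEq x d).symm.of_dvd hqd) ((Nat.mod_modEq y d).symm.of_dvd hqd)
  have hcard : ((Icc 1 X ×ˢ Icc 1 X).filter (fun t : ℕ × ℕ => ∀ p ∈ P, Z p t.1 t.2)).card =
      ∑ t ∈ R, ((Icc 1 X).filter (fun u => u % d = t.1)).card *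
        ((Icc 1 X).filter (fun u => u % d = t.2)).card := by
    rw [Finset.card_eq_sum_card_fiberwise (f := fun t : ℕ × ℕ => (t.1 % d, t.2 % d)) (t := R)]
    · refine sum_congr rfl fun t ht => ?_
      rw [← card_product]
      congr 1
      ext ⟨u, v⟩
      obtain ⟨a, b⟩ := t
      rw [hR, mem_filter] at ht
      simp only [mem_filter, mem_product, Prod.mk.injEq]
      constructor
      · rintro ⟨⟨⟨h1, h2⟩, h3⟩, h4, h5⟩
        exact ⟨⟨h1, h4⟩, h2, h5⟩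
      · rintro ⟨⟨h1, h4⟩, h2, h5⟩
        refine ⟨⟨⟨h1, h2⟩, ?_⟩, h4, h5⟩
        rw [hper, h4, h5]
        exact ht.2
    · rintro ⟨u, v⟩ h
      have h' := (mem_filter.1 (Finset.mem_coe.1 h)).2
      apply Finset.mem_coe.2
      rw [hR, mem_filter, mem_product]
      exact ⟨⟨mem_range.2 (Nat.mod_lt _ hd0), mem_range.2 (Nat.mod_lt _ hd0)⟩, (hper u v).1 h'⟩
  rw [hmain, hcard, Nat.cast_sum, ← sum_sub_distrib, hdr]
  refine (abs_sum_le_sum_abs _ _).trans ?_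
  have hdR : (0 : ℝ) < d := by exact_mod_cast hd0
  have hX1 : (1 : ℝ) ≤ X / d := by
    rw [le_div_iff₀ hdR, one_mul]
    exact_mod_cast hX
  have hle : ∀ t ∈ R, |(((((Icc 1 X).filter (fun u => u % d = t.1)).card *
        ((Icc 1 X).filter (fun u => u % d = t.2)).card : ℕ) : ℝ)) - (X : ℝ) ^ 2 / d ^ 2| ≤
        3 * (X / d) := by
    rintro ⟨a, b⟩ ht
    rw [hR, mem_filter, mem_product, mem_range, mem_range] at ht
    have h1 := abs_le.1 (card_res X d a hd0 ht.1.1)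
    have h2 := abs_le.1 (card_res X d b hd0 ht.1.2)
    push_cast
    set A : ℝ := (((Icc 1 X).filter (fun u => u % d = a)).card : ℝ) with hA
    set B : ℝ := (((Icc 1 X).filter (fun u => u % d = b)).card : ℝ) with hB
    set q : ℝ := (X : ℝ) / d with hq
    have hB0 : 0 ≤ B := Nat.cast_nonneg _
    have e : (X : ℝ) ^ 2 / d ^ 2 = q * q := by rw [hq]; ring
    rw [e]
    exact prod_close A B q hB0 h1 h2 hX1
  refine (sum_le_sum hle).trans ?_
  rw [sum_const, nsmul_eq_mul]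
  have hRle : (R.card : ℝ) ≤ (d : ℝ) * d := by
    have : R.card ≤ d * d := by
      refine (card_filter_le _ _).trans ?_
      rw [card_product, card_range]
    exact_mod_cast this
  have hXd : (0 : ℝ) ≤ 3 * (X / d) := by positivity
  calc (R.card : ℝ) * (3 * (X / d)) ≤ (d : ℝ) * d * (3 * (X / d)) :=
        mul_le_mul_of_nonneg_right hRle hXd
    _ = 3 * d * X := by field_simp

theorem t_CNT2 : Pool.Agent.N870.EC.S_CNT2 := cnt2

end Pool.Agent.N454.EC
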